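import Pool.Agent.H65.PK.Targets
import Pool.Agent.H73.TD.ZER

/-!
Row ZEK of the board pker_modules (MP_58ae59_nt): the zero estimate applied to our points.
-/

set_option autoImplicit false

open Polynomial Module Filter Topology Pool.Agent.H18.TD Pool.Agent.H72.HR

namespace Pool.Agent.H40.PKER

open Pool.Agent.H65.PK (T_ZEN T_CHW T_GRO T_ZEK GF dl tl Mnl)
open Pool.Agent.H73.TD (gam_add gam_zero gam_sub GG ortho)

/-- the weights of the derivatives are cancelled -/
theorem canc {F S e1 e2 K Q : ℕ} (hS : 1 ≤ S) (he : e2 ≤ e1)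
    (H : F * (S + 1) ^ e1 ≤ K * (S ^ e2 * Q)) : F ≤ K * Q := by
  have hP : 0 < S ^ e2 := pow_pos (by omega) _
  have h1 : S ^ e2 ≤ (S + 1) ^ e1 :=
    (Nat.pow_le_pow_left (Nat.le_succ _) _).trans (Nat.pow_le_pow_right (Nat.succ_pos _) he)
  have h3 : F * S ^ e2 ≤ K * Q * S ^ e2 := by
    calc F * S ^ e2 ≤ F * (S + 1) ^ e1 := Nat.mul_le_mul_left _ h1
      _ ≤ K * (S ^ e2 * Q) := H
      _ = K * Q * S ^ e2 := by ring
  exact Nat.le_of_mul_le_mul_right h3 hP

/-- a product over a part of the indices -/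
theorem prod_tl {d : ℕ} {K : ℕ} {g : ℕ → ℕ} (hg : GF K g) (ω : Fin d → ℕ) (h : ℕ)
    (J : Finset (Fin d)) :
    ∏ j ∈ J, tl g (ω j) h ≤ h ^ J.card * g h ^ ((∑ a, ω a) * d) := by
  have h1 : ∀ j ∈ J, tl g (ω j) h ≤ h * g h ^ (∑ a, ω a) := by
    intro j _
    unfold tl
    refine Nat.mul_le_mul_left _ (Nat.pow_le_pow_right (hg.one h) ?_)
    exact Finset.single_le_sum (f := ω) (fun i _ => Nat.zero_le _) (Finset.mem_univ j)
  calc ∏ j ∈ J, tl g (ω j) h ≤ ∏ _j ∈ J, (h * g h ^ (∑ a, ω a)) := Finset.prod_le_prod' h1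
    _ = h ^ J.card * g h ^ ((∑ a, ω a) * J.card) := by
      rw [Finset.prod_const, mul_pow, ← pow_mul]
    _ ≤ h ^ J.card * g h ^ ((∑ a, ω a) * d) := by
      refine Nat.mul_le_mul_left _ (Nat.pow_le_pow_right (hg.one h) (Nat.mul_le_mul_left _ ?_))
      simpa using J.card_le_univ

/-- the whole product -/
theorem prod_all {d : ℕ} {g : ℕ → ℕ} (ω : Fin d → ℕ) (h : ℕ) :
    ∏ j, tl g (ω j) h = h ^ d * g h ^ (∑ a, ω a) := by
  unfold tl
  rw [Finset.prod_mul_distrib, Finset.prod_const, Finset.card_univ, Fintype.card_fin,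
    Finset.prod_pow_eq_pow_sum]

/-- a lattice of rank zero is trivial -/
theorem rank_zero {c : ℕ} (G : AddSubgroup (Fin c → ℤ)) (hG : finrank ℤ G = 0)
    (s : Fin c → ℤ) (hs : s ∈ G) : s = 0 := by
  have h1 : Subsingleton (AddSubgroup.toIntSubmodule G) := by
    rw [← Module.finrank_zero_iff (R := ℤ)]
    exact hG
  have h2 : (⟨s, hs⟩ : AddSubgroup.toIntSubmodule G) = ⟨0, G.zero_mem⟩ := Subsingleton.elim _ _
  exact congrArg Subtype.val h2

theorem pf_ZEK : T_ZEN → T_CHW → T_CLB → T_ZR1 → T_ZR2 → T_ZR3 → T_ZR4 → T_GRO → T_ZEK := by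
  intro ZEN CHW CLB ZR1 ZR2 ZR3 ZR4 GRO r d n X Y w A ω υ κ K g hK hg hd hY hXY hw hA hωυ
  obtain ⟨h1, hh1, hgro⟩ := GRO K g hK hg (((r + d) ^ (r + d) : ℕ) + 1 : ℝ) ((∑ a, ω a) * d)
  obtain ⟨h2, hlarge⟩ := hg.large ((r + d) ^ (r + d) + 1)
  refine ⟨max (max h1 h2) ((r + d) ^ (r + d) + 2), fun h hh P hP hPb => ?_⟩
  by_contra hcon
  push Not at hcon
  have hhK : (r + d) ^ (r + d) + 2 ≤ h := (le_max_right _ _).trans hh
  have hhA : h1 ≤ h := ((le_max_left _ _).trans (le_max_left _ _)).trans hh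
  have hhB : h2 ≤ h := ((le_max_right _ _).trans (le_max_left _ _)).trans hh
  have h0 : 0 < h := by omega
  have hg1 : 1 ≤ g h := hg.one h
  have hdl : 1 ≤ dl g κ h := Nat.mul_pos (pow_pos h0 _) (pow_pos hg1 _)
  have htl : ∀ q : ℕ, h ≤ tl g q h := fun q => Nat.le_mul_of_pos_right _ (pow_pos hg1 _)
  -- the chain
  have hch := CHW (Fin r ⊕ Fin d) (Fin r) (Fin d) kap (Pool.Agent.H18.TD.om X)
    (Pool.Agent.H18.TD.gam X Y) (dl g κ h) (fun j => tl g (υ j) h) P (gam_add X Y) (r + d) (by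
      intro s hs L hL
      refine hcon L s hL (fun j => ⟨(hs j).1, ?_⟩)
      have := (hs j).2
      push_cast at this
      exact this)
  obtain ⟨L, Θ, J, hstd, hL1, hL2, hL3, hJ, hF⟩ := ZEN (Fin r) (Fin d) (dl g κ h)
    (fun a => tl g (ω a) h) (dl g κ h)
    (Submodule.span ℂ (Set.range (Pool.Agent.H18.TD.om X)))
    (Pool.Agent.H18.TD.gam X Y '' {s | ∀ i, 0 ≤ s i ∧ s i ≤ ((tl g (υ i) h : ℕ) : ℤ)}) P
    hdl (fun a => (Nat.one_le_iff_ne_zero.2 h0.ne').trans (htl _))
    ⟨0, fun i => ⟨le_rfl, by simp⟩, gam_zero X Y⟩ hP hPb (by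
      intro f hf
      refine hch f ?_
      simpa only [Fintype.card_fin] using hf)
  simp only [Fintype.card_fin] at hL1 hL2 hL3 hJ hF
  have hstd' : Std kap (TT (dl g κ h) (∑ a, tl g (ω a) h)) L Θ := by
    refine ⟨hstd.hL, hstd.hΘ, fun u hu i => (hstd.hT u hu i).trans ?_⟩
    rcases i with i | i
    · simp [TT]
    · simp only [TT, Sum.elim_inr]
      exact_mod_cast Finset.single_le_sum (f := fun a => tl g (ω a) h)
        (fun i _ => Nat.zero_le _) (Finset.mem_univ i)
  obtain ⟨hz1, hz1'⟩ := ZR1 r d _ _ X L Θ hstd'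
  have hz2 := ZR2 r d _ _ L Θ hstd'
  set V : Submodule ℚ (Fin d → ℚ) := Submodule.span ℚ ((fun (u : Fin r ⊕ Fin d → ℤ)
    (a : Fin d) => (u (Sum.inr a) : ℚ)) '' Θ) with hV
  have hv : d - finrank ℂ (Lie kap (⊥ : Submodule ℂ (Fin r ⊕ Fin d → ℂ)) Θ) = finrank ℚ V := by
    omega
  rw [hv] at hJ
  classical
  -- the bound for finite sets of indices
  have hfin : ∀ F0 : Finset (Fin d → ℤ),
      (∀ s ∈ F0, ∀ i, 0 ≤ s i ∧ s i ≤ ((tl g (υ i) h : ℕ) : ℤ)) →
      (∀ s ∈ F0, ∀ s' ∈ F0, s - s' ∈ GG X Y L Θ → s = s') →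
      F0.card ≤ (r + d) ^ (r + d) * ∏ j ∈ J, tl g (ω j) h := by
    intro F0 hF1 hF2
    have hinj : Set.InjOn (Pool.Agent.H18.TD.gam X Y) (F0 : Set (Fin d → ℤ)) := by
      intro s hs s' hs' hss'
      refine hF2 s hs s' hs' ?_
      show Pool.Agent.H18.TD.gam X Y (s - s') ∈ Grp kap L Θ
      rw [gam_sub, hss', sub_self, ← gam_zero X Y]
      exact (GG X Y L Θ).zero_mem
    have hineq := hF (F0.image (Pool.Agent.H18.TD.gam X Y)) (by
        intro g hg
        obtain ⟨s, hs, rfl⟩ := Finset.mem_image.1 hg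
        exact ⟨s, hF1 s hs, rfl⟩) (by
        intro g hg g' hg' hgg
        obtain ⟨s, hs, rfl⟩ := Finset.mem_image.1 hg
        obtain ⟨s', hs', rfl⟩ := Finset.mem_image.1 hg'
        rw [hF2 s hs s' hs' (by
          show Pool.Agent.H18.TD.gam X Y (s - s') ∈ Grp kap L Θ
          rw [gam_sub]
          exact hgg)])
    rw [Finset.card_image_of_injOn hinj, hz1] at hineq
    exact canc hdl (Nat.sub_le_sub_left hz1' r) hineq
  -- the group
  obtain ⟨F0, hF1, hF2, hF3⟩ := CLB (Fin d) (GG X Y L Θ) h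
  rw [Fintype.card_fin] at hF3
  have key : h ^ (d - finrank ℤ (GG X Y L Θ)) ≤
      (r + d) ^ (r + d) * ∏ j ∈ J, tl g (ω j) h := by
    refine ((Nat.pow_le_pow_left (Nat.le_succ _) _).trans hF3).trans (hfin F0 ?_ hF2)
    intro s hs i
    refine ⟨(hF1 s hs i).1, (hF1 s hs i).2.trans ?_⟩
    exact_mod_cast htl _
  by_cases hVb : V = ⊥
  · -- the additive case
    have hv0 : finrank ℚ V = 0 := by rw [hVb]; simp
    rw [hv0] at hJ
    rw [Finset.card_eq_zero.1 hJ, Finset.prod_empty, mul_one] at key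
    have hLr : finrank ℂ L < r := by omega
    by_cases hcG : d ≤ finrank ℤ (GG X Y L Θ)
    · have := ZR4 r d d Y L (GG X Y L Θ) hY hstd.hL hcG (by
        intro s hs
        have h1 : (fun i : Fin r ⊕ Fin d => if (kap i : Bool) = true then (0 : ℂ)
          else (Pool.Agent.H18.TD.gam X Y s) i) ∈ L := hs.1
        have e : (Sum.elim (fun i => ∑ j, Y i j * (s j : ℂ)) (fun _ => 0) :
            Fin r ⊕ Fin d → ℂ) = (fun i : Fin r ⊕ Fin d => if (kap i : Bool) = true then (0 : ℂ)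
          else (Pool.Agent.H18.TD.gam X Y s) i) := by
          funext i
          rcases i with i | i
          · simp [kap, Pool.Agent.H18.TD.gam]
          · simp [kap]
        rw [e]
        exact h1)
      omega
    · have h1 : 1 ≤ d - finrank ℤ (GG X Y L Θ) := by omega
      have h2 : h ^ 1 ≤ h ^ (d - finrank ℤ (GG X Y L Θ)) := Nat.pow_le_pow_right h0 h1
      rw [pow_one] at h2
      omega
  · -- the general case
    set U : Submodule ℚ (Fin d → ℚ) := Submodule.span ℚ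
      {x | ∃ k, ∃ y ∈ V, x = Matrix.vecMul y ((A k).map (Int.cast : ℤ → ℚ))} with hU
    obtain ⟨hUV1, hUV2⟩ := hA V U (fun k y hy => Submodule.subset_span ⟨k, y, hy, rfl⟩) hVb
    have horth : ∀ s ∈ GG X Y L Θ, ∀ x ∈ U, ∑ j, x j * (s j : ℚ) = 0 := by
      intro s hs x hx
      -- for the characters
      have h1 : ∀ k : Fin (n + 1), ∀ y ∈ V,
          ∑ j, Matrix.vecMul y ((A k).map (Int.cast : ℤ → ℚ)) j * (s j : ℚ) = 0 := by
        intro k y hy
        rw [hV] at hy
        induction hy using Submodule.span_induction with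
        | mem y hy =>
          obtain ⟨u, hu, rfl⟩ := hy
          have h2 := ortho X Y w A hXY hw u (fun i => hstd.hΘ u hu (Sum.inl i) rfl) s
            (hs.2 u hu) k
          have h3 : ((∑ p, ∑ j, u (Sum.inr p) * A k p j * s j : ℤ) : ℚ) = 0 := by
            rw [h2, Int.cast_zero]
          rw [← h3]
          push_cast
          rw [Finset.sum_comm]
          refine Finset.sum_congr rfl fun j _ => ?_
          simp only [Matrix.vecMul, dotProduct, Matrix.map_apply]
          rw [Finset.sum_mul]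
        | zero => simp
        | add y z _ _ h2 h3 =>
          rw [Matrix.add_vecMul]
          simp only [Pi.add_apply, add_mul, Finset.sum_add_distrib, h2, h3, add_zero]
        | smul t y _ h2 =>
          rw [Matrix.smul_vecMul]
          simp only [Pi.smul_apply, smul_eq_mul, mul_assoc, ← Finset.mul_sum, h2, mul_zero]
      rw [hU] at hx
      induction hx using Submodule.span_induction with
      | mem x hx =>
        obtain ⟨k, y, hy, rfl⟩ := hx
        exact h1 k y hy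
      | zero => simp
      | add y z _ _ h2 h3 =>
        simp only [Pi.add_apply, add_mul, Finset.sum_add_distrib, h2, h3, add_zero]
      | smul t y _ h2 =>
        simp only [Pi.smul_apply, smul_eq_mul, mul_assoc, ← Finset.mul_sum, h2, mul_zero]
    have hz3 := ZR3 d (GG X Y L Θ) U horth
    by_cases hVt : V = ⊤
    · -- all characters
      have hvd : finrank ℚ V = d := by rw [hVt, finrank_top, finrank_fin_fun]
      have hG0 : finrank ℤ (GG X Y L Θ) = 0 := by omega
      have hJu : J = Finset.univ := by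
        refine (Finset.card_eq_iff_eq_univ J).1 ?_
        rw [hJ, hvd, Fintype.card_fin]
      have hall := hfin (Fintype.piFinset fun j => Finset.Icc (0 : ℤ) (tl g (υ j) h : ℕ)) (by
          intro s hs i
          exact Finset.mem_Icc.1 (Fintype.mem_piFinset.1 hs i)) (by
          intro s _ s' _ hss
          exact sub_eq_zero.1 (rank_zero _ hG0 _ hss))
      rw [hJu, prod_all, Fintype.card_piFinset] at hall
      have hcard : h ^ d * g h ^ (∑ a, υ a) ≤
          ∏ j, (Finset.Icc (0 : ℤ) (tl g (υ j) h : ℕ)).card := by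
        rw [← prod_all]
        refine Finset.prod_le_prod' fun j _ => ?_
        rw [Int.card_Icc]
        omega
      have h3 : h ^ d * (g h ^ (∑ a, ω a) * g h) ≤
          h ^ d * (g h ^ (∑ a, ω a) * (r + d) ^ (r + d)) := by
        calc h ^ d * (g h ^ (∑ a, ω a) * g h) = h ^ d * g h ^ (∑ a, ω a + 1) := by
              rw [pow_succ]
          _ ≤ h ^ d * g h ^ (∑ a, υ a) :=
              Nat.mul_le_mul_left _ (Nat.pow_le_pow_right hg1 hωυ)
          _ ≤ (r + d) ^ (r + d) * (h ^ d * g h ^ (∑ a, ω a)) := hcard.trans hall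
          _ = h ^ d * (g h ^ (∑ a, ω a) * (r + d) ^ (r + d)) := by ring
      have h4 := Nat.le_of_mul_le_mul_left h3 (pow_pos h0 _)
      have h5 := Nat.le_of_mul_le_mul_left h4 (pow_pos hg1 _)
      have h6 := hlarge h hhB
      omega
    · -- a proper subspace
      have hUV := hUV2 hVt
      have h1 : finrank ℚ V + 1 ≤ d - finrank ℤ (GG X Y L Θ) := by omega
      have h3 : h ^ (finrank ℚ V) * h ≤
          h ^ (finrank ℚ V) * ((r + d) ^ (r + d) * g h ^ ((∑ a, ω a) * d)) := by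
        calc h ^ (finrank ℚ V) * h = h ^ (finrank ℚ V + 1) := (pow_succ _ _).symm
          _ ≤ h ^ (d - finrank ℤ (GG X Y L Θ)) := Nat.pow_le_pow_right h0 h1
          _ ≤ (r + d) ^ (r + d) * ∏ j ∈ J, tl g (ω j) h := key
          _ ≤ (r + d) ^ (r + d) * (h ^ J.card * g h ^ ((∑ a, ω a) * d)) :=
              Nat.mul_le_mul_left _ (prod_tl hg ω h J)
          _ = h ^ (finrank ℚ V) * ((r + d) ^ (r + d) * g h ^ ((∑ a, ω a) * d)) := by
              rw [hJ]; ring
      have h4 := Nat.le_of_mul_le_mul_left h3 (pow_pos h0 _)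
      have h5 := hgro h hhA
      have h6 : (h : ℝ) ≤ ((r + d) ^ (r + d) : ℕ) * (g h : ℝ) ^ ((∑ a, ω a) * d) := by
        exact_mod_cast h4
      have h7 : (1 : ℝ) ≤ (g h : ℝ) ^ ((∑ a, ω a) * d) :=
        one_le_pow₀ (by exact_mod_cast hg1)
      have h8 : (1 : ℝ) ≤ (1 + Real.log h) ^ ((∑ a, ω a) * d) := by
        refine one_le_pow₀ ?_
        have : 0 ≤ Real.log (h : ℝ) := Real.log_natCast_nonneg h
        linarith
      have h9 : (g h : ℝ) ^ ((∑ a, ω a) * d) ≤
          (g h : ℝ) ^ ((∑ a, ω a) * d) * (1 + Real.log h) ^ ((∑ a, ω a) * d) :=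
        le_mul_of_one_le_right (by linarith) h8
      have h10 : ((((r + d) ^ (r + d) : ℕ) : ℝ) + 1) * (g h : ℝ) ^ ((∑ a, ω a) * d) ≤ h :=
        (mul_le_mul_of_nonneg_left h9 (by positivity)).trans h5
      linarith

end Pool.Agent.H40.PKER
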